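import Pool.Agent.Helper386.D5V.Helper386_FF_Riemann

/-! The genus of a function field generated by two elements with few poles. -/

set_option autoImplicit false
set_option linter.all false

open Module IsDedekindDomain IntermediateField FF

namespace Pool.Agent.W523.BN

variable {k K : Type*} [Field k] [Field K] [Algebra k K] [CharZero k] [IsFF k K]

/-- `g` is the genus of the function field `K / k`. -/
def HasGenus (k K : Type*) [Field k] [Field K] [Algebra k K] [CharZero k] [IsFF k K] (g : ℕ) : Prop :=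
  (∀ D : Place k K →₀ ℤ, ddeg D + 1 - g ≤ ell D) ∧
  ∃ N : ℤ, ∀ D : Place k K →₀ ℤ, N ≤ ddeg D → ell D = ddeg D + 1 - g

theorem pow_indep {x : K} (hx : Transcendental k x) :
    LinearIndependent k (fun j : ℕ => (AdjoinSimple.gen k x) ^ j) := by
  have h1 := (Polynomial.basisMonomials k).linearIndependent
  have h2 := h1.map' (Polynomial.aeval (AdjoinSimple.gen k x)).toLinearMap (by
    rw [LinearMap.ker_eq_bot]
    have : Transcendental k (AdjoinSimple.gen k x) := by
      intro h
      apply hx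
      have := h.algebraMap (A := K)
      simpa using this
    exact transcendental_iff_injective.1 this)
  have h3 : (fun j : ℕ => (AdjoinSimple.gen k x) ^ j) = ⇑(Polynomial.aeval (AdjoinSimple.gen k x)).toLinearMap ∘ ⇑(Polynomial.basisMonomials k) := by
    funext j
    simp
  rw [h3]
  exact h2

theorem ord_ge_polar (P : Place k K) (x : K) : - polar (k := k) x P ≤ P.ord x := by
  rw [polar_apply]
  omega

theorem genus_le {x y : K} (hx : Transcendental k x) (hxy : k⟮x⟯⟮y⟯ = ⊤) {g : ℕ} (hg : HasGenus k K g) :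
    (g : ℤ) ≤ (ddeg (polar (k := k) x) - 1) * (ddeg (polar (k := k) y) - 1) := by
  classical
  have hfin := IsFF.finite hx
  have hchar : CharZero k⟮x⟯ := charZero_of_injective_algebraMap (algebraMap k k⟮x⟯).injective
  set n : ℕ := finrank k⟮x⟯ K with hn
  have hn0 : 0 < n := finrank_pos
  have hdeg : (minpoly k⟮x⟯ y).natDegree = n := by
    rw [hn]
    exact (Field.primitive_element_iff_minpoly_natDegree_eq k⟮x⟯ y).1 hxy
  have hyind : LinearIndependent k⟮x⟯ (fun i : Fin n => y ^ (i : ℕ)) := by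
    have h1 := linearIndependent_pow (K := k⟮x⟯) y
    rw [hdeg] at h1
    exact h1
  have hind := linearIndependent_smul (pow_indep (k := k) hx) hyind
  obtain ⟨-, N, hN⟩ := hg
  set m : ℤ := ddeg (polar (k := k) y) with hm
  have hm0 : 0 ≤ m := ddeg_nonneg (polar_nonneg y)
  have hpx : ddeg (polar (k := k) x) = n := ddeg_polar hx
  set M : ℕ := N.toNat with hM
  set E : Place k K →₀ ℤ := M • polar (k := k) x + (n - 1) • polar (k := k) y with hE
  have hdE : ddeg E = M * n + (n - 1) * m := by
    rw [hE, ddeg_add, ddeg_nsmul, ddeg_nsmul, hpx, Nat.cast_sub hn0]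
    push_cast
    rfl
  have hmem : ∀ p : Fin (M + 1) × Fin n, x ^ (p.1 : ℕ) * y ^ (p.2 : ℕ) ∈ LL E := by
    rintro ⟨i, j⟩
    have hx0 : x ≠ 0 := by
      rintro rfl; exact hx isAlgebraic_zero
    by_cases hy0 : y ^ (j : ℕ) = 0
    · rw [hy0, mul_zero]; exact Or.inl rfl
    right
    intro P
    rw [P.ord_mul (pow_ne_zero _ hx0) hy0, P.ord_pow, P.ord_pow, hE, Finsupp.add_apply, Finsupp.smul_apply,
      Finsupp.smul_apply, nsmul_eq_mul, nsmul_eq_mul]
    have h1 := ord_ge_polar P x
    have h2 := ord_ge_polar P y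
    have h3 := polar_nonneg (k := k) x P
    have h4 := polar_nonneg (k := k) y P
    simp only [Finsupp.coe_zero, Pi.zero_apply] at h3 h4
    have hi : (i : ℤ) ≤ M := by have := i.2; push_cast; omega
    have hj : ((j : ℕ) : ℤ) ≤ ((n - 1 : ℕ) : ℤ) := by have := j.2; push_cast; omega
    have e1 : (i : ℤ) * polar (k := k) x P ≤ M * polar (k := k) x P := mul_le_mul_of_nonneg_right hi h3
    have e2 : ((j : ℕ) : ℤ) * polar (k := k) y P ≤ ((n - 1 : ℕ) : ℤ) * polar (k := k) y P :=
      mul_le_mul_of_nonneg_right hj h4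
    have e3 : (i : ℤ) * (- polar (k := k) x P) ≤ i * P.ord x := mul_le_mul_of_nonneg_left h1 (by positivity)
    have e4 : ((j : ℕ) : ℤ) * (- polar (k := k) y P) ≤ (j : ℕ) * P.ord y := mul_le_mul_of_nonneg_left h2 (by positivity)
    simp only [mul_neg] at e3 e4
    linarith
  have hcard : (M + 1) * n ≤ finrank k (LL E) := by
    have h1 : LinearIndependent k (fun p : Fin (M + 1) × Fin n =>
        (AdjoinSimple.gen k x) ^ (p.1 : ℕ) • y ^ (p.2 : ℕ)) := by
      have := hind.comp (fun p : Fin (M + 1) × Fin n => ((p.1 : ℕ), p.2)) (by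
        rintro ⟨a, b⟩ ⟨c, d⟩ h
        simp only [Prod.mk.injEq] at h
        ext
        · exact h.1
        · exact congrArg Fin.val h.2)
      exact this
    have h2 : ∀ p : Fin (M + 1) × Fin n, (AdjoinSimple.gen k x) ^ (p.1 : ℕ) • y ^ (p.2 : ℕ) ∈ LL E := by
      intro p
      have : (AdjoinSimple.gen k x) ^ (p.1 : ℕ) • y ^ (p.2 : ℕ) = x ^ (p.1 : ℕ) * y ^ (p.2 : ℕ) := by
        rw [Algebra.smul_def]; simp
      rw [this]
      exact hmem p
    let v : Fin (M + 1) × Fin n → LL E := fun p => ⟨_, h2 p⟩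
    have h3 : LinearIndependent k v := by
      apply LinearIndependent.of_comp (LL E).subtype
      exact h1
    have h4 := h3.fintype_card_le_finrank
    simpa using h4
  have hND : N ≤ ddeg E := by
    rw [hdE]
    have h1 : (1 : ℤ) ≤ n := by exact_mod_cast hn0
    have h2 : (0 : ℤ) ≤ (n - 1) * m := mul_nonneg (by omega) hm0
    have h3 : (M : ℤ) * 1 ≤ M * n := mul_le_mul_of_nonneg_left h1 (by positivity)
    omega
  have h5 := hN E hND
  have h6 : (((M + 1) * n : ℕ) : ℤ) ≤ ell E := by
    unfold ell; exact_mod_cast hcard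
  rw [h5, hdE] at h6
  rw [hpx]
  push_cast at h6
  nlinarith

end Pool.Agent.W523.BN
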