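import Pool.Agent.W523.BN.Bound
import Pool.Agent.Helper386.D5V.Helper386_FF_Loc7

/-! Fibre divisors of a covering of curves. -/

set_option autoImplicit false
set_option linter.all false

open Module IsDedekindDomain IntermediateField FF

namespace Pool.Agent.W523.BN

variable {k K : Type*} [Field k] [Field K] [Algebra k K] [CharZero k] [IsFF k K]

theorem exists_field {x : K} (hx : Transcendental k x) (V : Submodule k K)
    (h : ∀ y ∈ V, k⟮x⟯⟮y⟯ ≠ ⊤) : ∃ E : IntermediateField k K, E ≠ ⊤ ∧ x ∈ E ∧ ∀ v ∈ V, v ∈ E := by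
  classical
  have hfin := IsFF.finite hx
  have hchar : CharZero k⟮x⟯ := charZero_of_injective_algebraMap (algebraMap k k⟮x⟯).injective
  have hF := Field.finite_intermediateField_of_exists_primitive_element k⟮x⟯ K
    (Field.exists_primitive_element k⟮x⟯ K)
  let ι := {E : IntermediateField k⟮x⟯ K // E ≠ ⊤}
  let p : ι → Submodule k V := fun E => (Subalgebra.toSubmodule (E.1.toSubalgebra.restrictScalars k)).comap V.subtype
  have hp : ⋃ i, (p i : Set V) = Set.univ := by
    rw [Set.eq_univ_iff_forall]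
    rintro ⟨y, hy⟩
    rw [Set.mem_iUnion]
    exact ⟨⟨k⟮x⟯⟮y⟯, h y hy⟩, mem_adjoin_simple_self k⟮x⟯ y⟩
  obtain ⟨i, hi⟩ := Subspace.exists_eq_top_of_iUnion_eq_univ hp
  refine ⟨i.1.restrictScalars k, ?_, ?_, ?_⟩
  · intro hc
    apply i.2
    rw [eq_top_iff]
    intro z _
    have : z ∈ i.1.restrictScalars k := by rw [hc]; trivial
    exact this
  · exact i.1.algebraMap_mem (AdjoinSimple.gen k x)
  · intro v hv
    have : (⟨v, hv⟩ : V) ∈ p i := by rw [hi]; trivial
    exact this

theorem deg_one [IsAlgClosed k] (P : Place k K) : P.deg = 1 := by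
  unfold Place.deg
  have h1 : Algebra.IsIntegral k P.RF := inferInstance
  have h2 := IsAlgClosed.algebraMap_bijective_of_isIntegral (k := k) (K := P.RF)
  rw [finrank_eq_one_iff_of_nonzero' (1 : P.RF) one_ne_zero]
  intro w
  obtain ⟨c, hc⟩ := h2.2 w
  exact ⟨c, by rw [Algebra.smul_def, mul_one, hc]⟩

theorem trans_of_notMem [IsAlgClosed k] {x : K} (hx : ∀ c : k, algebraMap k K c ≠ x) : Transcendental k x := by
  intro h
  have h1 : Algebra.IsAlgebraic k k⟮x⟯ := isAlgebraic_adjoin_simple h.isIntegral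
  have h2 := IntermediateField.eq_bot_of_isAlgClosed_of_isAlgebraic k⟮x⟯
  have h3 := mem_adjoin_simple_self k x
  rw [h2, IntermediateField.mem_bot] at h3
  obtain ⟨c, hc⟩ := h3
  exact hx c hc

theorem not_mem_of_trans {x : K} (hx : Transcendental k x) (c : k) : algebraMap k K c ≠ x := by
  rintro rfl
  exact hx (isAlgebraic_algebraMap c)

theorem trans_sub {x : K} (hx : Transcendental k x) (c : k) : Transcendental k (x - algebraMap k K c) := by
  intro h
  apply hx
  have := h.add (isAlgebraic_algebraMap (A := K) c)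
  simpa using this

theorem finrank_tower (E : IntermediateField k K) (z : E) :
    finrank k⟮(z : K)⟯ K = finrank k⟮z⟯ E * finrank E K := by
  have h1 := Module.finrank_mul_finrank k⟮z⟯ E K
  rw [h1]
  let i : k⟮z⟯ ≃ₐ[k] k⟮(z : K)⟯ := (IntermediateField.equivMap k⟮z⟯ E.val).trans
    (IntermediateField.equivOfEq (by rw [IntermediateField.adjoin_map, Set.image_singleton]; rfl))
  symm
  refine Algebra.finrank_eq_of_equiv_equiv i.toRingEquiv (RingEquiv.refl K) ?_
  ext a
  rfl

/-- The fibre through `P` of the covering defined by a subfield `E`: an effective divisor `F` of degree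
`[K : E]`, supported at places where all functions of `E` vanishing at `P` vanish, to order at least the
multiplicity in `F`. -/
theorem exists_fibre [IsAlgClosed k] (E : IntermediateField k K) {x : K} (hx : Transcendental k x) (hxE : x ∈ E)
    (P : Place k K) : ∃ F : Place k K →₀ ℤ, 0 ≤ F ∧ ddeg F = finrank E K ∧
      ∀ w ∈ E, 0 < P.ord w → ∀ Q, 0 < F Q → F Q ≤ Q.ord w := by
  classical
  have hfin := IsFF.finite hx
  have hxE' : k⟮x⟯ ≤ E := by
    rw [adjoin_simple_le_iff]; exact hxE
  have halg : Algebra.IsAlgebraic E K := by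
    letI := (inclusion hxE').toRingHom.toAlgebra
    have : IsScalarTower k⟮x⟯ E K := IsScalarTower.of_algebraMap_eq (fun _ => rfl)
    have h1 : Algebra.IsAlgebraic k⟮x⟯ K := IsFF.isAlgebraic hx
    exact Algebra.IsAlgebraic.tower_top (K := k⟮x⟯) E
  have hFF : IsFF k E := IsFF.of_isAlgebraic (K' := K)
  have hov : ∀ Q : Place k K, ∃ (e : ℕ) (Q0 : Place k E), Over Q Q0 e := fun Q => exists_over_alg Q
  choose e r hov using hov
  -- a function on E with a pole only at r P
  obtain ⟨γ, -, hγ, -⟩ := riemann k E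
  obtain ⟨z, hz, hzc⟩ : ∃ z ∈ LL (Finsupp.single (r P) (γ + 2)), ∀ c : k, algebraMap k E c ≠ z := by
    by_contra hc
    push Not at hc
    have h1 := hγ (Finsupp.single (r P) (γ + 2))
    rw [ddeg_single, deg_one] at h1
    have h2 : LL (Finsupp.single (r P) (γ + 2)) ≤ Submodule.span k {(1 : E)} := by
      intro z hz
      obtain ⟨c, hc⟩ := hc z hz
      rw [Submodule.mem_span_singleton]
      exact ⟨c, by rw [Algebra.smul_def, mul_one, hc]⟩
    have h3 := Submodule.finrank_mono h2
    have h4 := finrank_span_singleton (K := k) (v := (1 : E)) one_ne_zero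
    unfold ell at h1
    have h5 : (finrank k (LL (Finsupp.single (r P) (γ + 2))) : ℤ) ≤ 1 := by
      rw [h4] at h3; exact_mod_cast h3
    push_cast at h1
    linarith
  have hzt : Transcendental k z := trans_of_notMem hzc
  have hz0 : z ≠ 0 := by
    rintro rfl; exact hzt isAlgebraic_zero
  have hzt' : Transcendental k (z : K) := by
    intro h
    apply hzt
    exact (isAlgebraic_algebraMap_iff (A := K) (algebraMap E K).injective).1 h
  have hreg : ∀ Q : Place k E, Q ≠ r P → 0 ≤ Q.ord z := by
    intro Q hQ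
    rcases hz with hz | hz
    · exact absurd hz hz0
    · have := hz Q
      rw [Finsupp.single_apply, if_neg (fun h => hQ h.symm)] at this
      simpa using this
  have hpole : (r P).ord z < 0 := by
    by_contra hc
    obtain ⟨S, hS, hS2⟩ := poles (k := k) (f := z) hzt
    have h1 := IsFF.finite hzt
    have h2 : 0 < finrank k⟮z⟯ E := finrank_pos
    have h3 : S = ∅ := by
      rw [Finset.eq_empty_iff_forall_notMem]
      intro Q hQ
      have h4 := (hS Q).1 hQ
      by_cases hQP : Q = r P
      · rw [hQP] at h4; exact hc h4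
      · have := hreg Q hQP; omega
    rw [h3] at hS2
    simp at hS2
    omega
  set μ : ℕ := (-(r P).ord z).toNat with hμ
  have hμ' : (μ : ℤ) = -(r P).ord z := by omega
  have hμ0 : (0 : ℤ) < μ := by omega
  let F : Place k K →₀ ℤ := (polar (k := k) (z : K)).mapRange (fun n => n / μ) (by simp)
  have hordz : ∀ Q : Place k K, Q.ord (z : K) = e Q * (r Q).ord z := fun Q => (hov Q).2 z
  have hF1 : ∀ Q, r Q = r P → F Q = e Q := by
    intro Q hQ
    have h1 : F Q = max (- Q.ord (z : K)) 0 / μ := by
      simp only [F, Finsupp.mapRange_apply, polar_apply]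
    rw [h1, hordz, hQ]
    have h2 : -((e Q : ℤ) * (r P).ord z) = e Q * μ := by rw [hμ']; ring
    rw [h2, max_eq_left (by positivity)]
    exact Int.mul_ediv_cancel _ hμ0.ne'
  have hF2 : ∀ Q, r Q ≠ r P → F Q = 0 := by
    intro Q hQ
    have h1 : F Q = max (- Q.ord (z : K)) 0 / μ := by
      simp only [F, Finsupp.mapRange_apply, polar_apply]
    rw [h1, hordz]
    have h2 : 0 ≤ (e Q : ℤ) * (r Q).ord z := mul_nonneg (by positivity) (hreg _ hQ)
    rw [max_eq_right (by omega)]
    simp
  have hpolar : polar (k := k) (z : K) = μ • F := by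
    ext Q
    rw [Finsupp.smul_apply, nsmul_eq_mul, polar_apply]
    by_cases hQ : r Q = r P
    · rw [hF1 Q hQ, hordz, hQ]
      have h2 : -((e Q : ℤ) * (r P).ord z) = μ * e Q := by rw [hμ']; ring
      rw [h2, max_eq_left (by positivity)]
    · rw [hF2 Q hQ, hordz]
      have h2 : 0 ≤ (e Q : ℤ) * (r Q).ord z := mul_nonneg (by positivity) (hreg _ hQ)
      rw [max_eq_right (by omega), mul_zero]
  have hdE : (μ : ℤ) = finrank k⟮z⟯ E := by
    rw [← ddeg_polar hzt]
    have : polar (k := k) z = Finsupp.single (r P) (μ : ℤ) := by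
      ext Q
      rw [polar_apply, Finsupp.single_apply]
      by_cases hQ : Q = r P
      · rw [if_pos hQ.symm, hQ, hμ', max_eq_left (by omega)]
      · rw [if_neg (fun h => hQ h.symm)]
        have := hreg Q hQ
        omega
    rw [this, ddeg_single, deg_one]
    simp
  refine ⟨F, ?_, ?_, ?_⟩
  · intro Q
    by_cases hQ : r Q = r P
    · rw [hF1 Q hQ]; simp
    · rw [hF2 Q hQ]; simp
  · have h1 := ddeg_polar hzt'
    rw [hpolar, ddeg_nsmul, finrank_tower E z] at h1
    push_cast at h1
    rw [← hdE] at h1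
    exact mul_left_cancel₀ hμ0.ne' h1
  · intro w hw hPw Q hFQ
    have hQ : r Q = r P := by
      by_contra hc
      rw [hF2 Q hc] at hFQ
      exact lt_irrefl _ hFQ
    rw [hF1 Q hQ]
    have h1 : P.ord w = e P * (r P).ord ⟨w, hw⟩ := (hov P).2 ⟨w, hw⟩
    have h2 : Q.ord w = e Q * (r P).ord ⟨w, hw⟩ := by rw [← hQ]; exact (hov Q).2 ⟨w, hw⟩
    have h3 : 0 < (r P).ord ⟨w, hw⟩ := by
      rw [h1] at hPw
      by_contra hc
      have : (e P : ℤ) * (r P).ord ⟨w, hw⟩ ≤ 0 := mul_nonpos_of_nonneg_of_nonpos (by positivity) (by omega)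
      omega
    rw [h2]
    calc (e Q : ℤ) = e Q * 1 := (mul_one _).symm
      _ ≤ _ := mul_le_mul_of_nonneg_left (by omega) (by positivity)

/-- The support of the fibre is in the zero set of `x - c` if `P` is. -/
theorem step [IsAlgClosed k] (E : IntermediateField k K) {x : K} (hx : Transcendental k x) (hxE : x ∈ E)
    (D : Place k K →₀ ℤ) (hD : ∀ w ∈ LL D, w ∈ E) :
    ∃ F : Place k K →₀ ℤ, 0 ≤ F ∧ ddeg F = finrank E K ∧ ell D - 1 ≤ ell (D - F) := by
  classical
  -- choose c
  obtain ⟨c, hc⟩ : ∃ c : k, ∀ Q ∈ D.support, ¬ 0 < Q.ord (x - algebraMap k K c) := by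
    by_contra hcon
    push Not at hcon
    choose q hq1 hq2 using hcon
    obtain ⟨a, b, hab, hqq⟩ : ∃ a b : k, a ≠ b ∧ q a = q b := by
      have : ∃ a b : k, a ≠ b ∧ (⟨q a, hq1 a⟩ : D.support) = ⟨q b, hq1 b⟩ :=
        Finite.exists_ne_map_eq_of_infinite (fun a : k => (⟨q a, hq1 a⟩ : D.support))
      obtain ⟨a, b, hab, h⟩ := this
      exact ⟨a, b, hab, congrArg Subtype.val h⟩
    have h1 := hq2 a
    have h2 := hq2 b
    rw [← hqq] at h2
    have h3 : (algebraMap k K (a - b)) ≠ 0 := by
      rw [Ne, map_eq_zero]; exact sub_ne_zero.2 hab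
    have h4 : (x - algebraMap k K b) - (x - algebraMap k K a) = algebraMap k K (a - b) := by
      rw [map_sub]; ring
    have hxa : x - algebraMap k K a ≠ 0 := fun h => by rw [h, Place.ord_zero] at h1; exact lt_irrefl _ h1
    have hxb : x - algebraMap k K b ≠ 0 := fun h => by rw [h, Place.ord_zero] at h2; exact lt_irrefl _ h2
    have h5 := (q a).ord_sub hxb hxa (by rw [h4]; exact h3)
    rw [h4, (q a).ord_const (by exact sub_ne_zero.2 hab)] at h5
    omega
  have hxc := trans_sub hx c
  obtain ⟨S, hS, -, hS2⟩ := zeros (k := k) (f := x - algebraMap k K c) hxc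
  obtain ⟨P, hP⟩ : ∃ P : Place k K, 0 < P.ord (x - algebraMap k K c) := by
    by_contra hcon
    push Not at hcon
    have h1 := IsFF.finite hxc
    have h2 : 0 < finrank k⟮x - algebraMap k K c⟯ K := finrank_pos
    have h3 : S = ∅ := by
      rw [Finset.eq_empty_iff_forall_notMem]
      intro Q hQ
      have h4 := (hS Q).1 hQ
      have := hcon Q; omega
    rw [h3] at hS2
    simp at hS2
    omega
  obtain ⟨F, hF0, hFd, hF⟩ := exists_fibre E hx hxE P
  refine ⟨F, hF0, hFd, ?_⟩
  have hxcE : x - algebraMap k K c ∈ E := E.sub_mem hxE (E.algebraMap_mem c)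
  have hsupp : ∀ Q, 0 < F Q → D Q = 0 := by
    intro Q hQ
    by_contra hDQ
    have h1 := hc Q (by rwa [Finsupp.mem_support_iff])
    have h2 := hF _ hxcE hP Q hQ
    omega
  have hDP : D P = 0 := by
    by_contra hDP
    exact hc P (by rwa [Finsupp.mem_support_iff]) hP
  have hle : LL (D - Finsupp.single P 1) ≤ LL (D - F) := by
    intro w hw
    rcases eq_or_ne w 0 with rfl | hw0
    · exact Or.inl rfl
    have hwD : w ∈ LL D := LL_mono (sub_le_self _ (by
      intro Q; rw [Finsupp.single_apply]; split_ifs <;> simp)) hw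
    have hwE := hD w hwD
    have hPw : 0 < P.ord w := by
      rcases hw with hw | hw
      · exact absurd hw hw0
      · have := hw P
        rw [Finsupp.sub_apply, hDP, Finsupp.single_apply, if_pos rfl] at this
        omega
    right
    intro Q
    rw [Finsupp.sub_apply]
    rcases hwD with hwD | hwD
    · exact absurd hwD hw0
    by_cases hQ : 0 < F Q
    · have h1 := hF w hwE hPw Q hQ
      rw [hsupp Q hQ]
      omega
    · have h1 := hwD Q
      have h2 := hF0 Q
      simp only [Finsupp.coe_zero, Pi.zero_apply] at h2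
      omega
  have h1 : ell (D - Finsupp.single P 1) ≤ ell (D - F) := by
    unfold ell
    exact_mod_cast Submodule.finrank_mono hle
  have h2 := ell_le (D := D - Finsupp.single P 1) (E := D) (sub_le_self _ (by
      intro Q; rw [Finsupp.single_apply]; split_ifs <;> simp))
  rw [ddeg_sub, ddeg_single, deg_one] at h2
  push_cast at h2
  omega

theorem steps [IsAlgClosed k] (E : IntermediateField k K) {x : K} (hx : Transcendental k x) (hxE : x ∈ E)
    (D : Place k K →₀ ℤ) (hD : ∀ w ∈ LL D, w ∈ E) (j : ℕ) :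
    ∃ F : Place k K →₀ ℤ, 0 ≤ F ∧ ddeg F = j * finrank E K ∧ ell D - j ≤ ell (D - F) := by
  induction j with
  | zero => exact ⟨0, le_refl _, by simp [ddeg_zero], by simp⟩
  | succ j ih =>
    obtain ⟨F, hF0, hFd, hF⟩ := ih
    obtain ⟨F', hF0', hFd', hF'⟩ := step E hx hxE (D - F) (fun w hw => hD w (LL_mono (sub_le_self _ hF0) hw))
    refine ⟨F + F', add_nonneg hF0 hF0', ?_, ?_⟩
    · rw [ddeg_add, hFd, hFd']; push_cast; ring
    · rw [← sub_sub]
      push_cast
      omega

end Pool.Agent.W523.BN
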