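import Pool.Agent.W523.BN.Hyper

/-! Riemann-Roch spaces of the hyperelliptic function field. -/

set_option autoImplicit false
set_option linter.all false

open Module IsDedekindDomain IntermediateField FF Polynomial

namespace Pool.Agent.W523.BN

variable {k K : Type*} [Field k] [Field K] [Algebra k K] [CharZero k] [IsFF k K]

theorem exists_zero {f : K} (hf : Transcendental k f) : ∃ P : Place k K, 0 < P.ord f := by
  obtain ⟨S, hS, -, hS2⟩ := zeros (k := k) (f := f) hf
  by_contra hcon
  push Not at hcon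
  have h1 := IsFF.finite hf
  have h2 : 0 < finrank k⟮f⟯ K := finrank_pos
  have h3 : S = ∅ := by
    rw [Finset.eq_empty_iff_forall_notMem]
    intro Q hQ
    have h4 := (hS Q).1 hQ
    have := hcon Q; omega
  rw [h3] at hS2
  simp at hS2
  omega

theorem exists_pole {f : K} (hf : Transcendental k f) : ∃ P : Place k K, P.ord f < 0 := by
  obtain ⟨P, hP⟩ := exists_zero (k := k) (f := f⁻¹) (fun h => hf (by simpa using h.inv))
  refine ⟨P, ?_⟩
  rw [P.ord_inv] at hP
  omega

variable [IsAlgClosed k]

section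
variable (g : ℕ)

theorem algebraMap_num_denom (a : RatFunc k) :
    algebraMap (RatFunc k) (HK k g) a * aeval (hx k g) a.denom = aeval (hx k g) a.num := by
  rw [aeval_hx, aeval_hx, ← map_mul]
  congr 1
  conv_lhs => rw [← RatFunc.num_div_denom a]
  rw [RatFunc.num_div_denom]
  have h1 : (algebraMap k[X] (RatFunc k) a.denom) ≠ 0 := by
    rw [Ne, map_eq_zero_iff _ (RatFunc.algebraMap_injective k)]
    exact a.denom_ne_zero
  have h2 := RatFunc.num_div_denom a
  rw [div_eq_iff h1] at h2
  exact h2.symm

theorem poly_of_mem {a : RatFunc k} (ha : a ≠ 0) {M : ℕ}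
    (h : algebraMap (RatFunc k) (HK k g) a ∈ LL (M • polar (k := k) (hx k g))) :
    ∃ p : k[X], algebraMap k[X] (RatFunc k) p = a ∧ p.natDegree ≤ M := by
  have hinj : Function.Injective (algebraMap (RatFunc k) (HK k g)) := (algebraMap (RatFunc k) (HK k g)).injective
  have ha' : algebraMap (RatFunc k) (HK k g) a ≠ 0 := by rwa [Ne, map_eq_zero]
  have hmem := h.resolve_left ha'
  have hne : ∀ p : k[X], p ≠ 0 → aeval (hx k g) p ≠ 0 := fun p hp h => hx_trans k g ⟨p, hp, h⟩
  have hden : a.denom.natDegree = 0 := by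
    by_contra hd
    obtain ⟨c, hc⟩ := IsAlgClosed.exists_root a.denom (by
      intro h
      apply hd
      rw [natDegree, h]; rfl)
    obtain ⟨P, hP⟩ := exists_zero (k := k) (trans_sub (hx_trans k g) c)
    have hxP : 0 ≤ P.ord (hx k g) := by
      by_contra hcon
      push Not at hcon
      rw [ord_sub_const_neg P hcon] at hP
      omega
    have hpol : polar (k := k) (hx k g) P = 0 := by
      rw [polar_apply, max_eq_right (by omega)]
    have h1 := hmem P
    rw [Finsupp.smul_apply, hpol, smul_zero, neg_zero] at h1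
    obtain ⟨q, hq⟩ := dvd_iff_isRoot.2 hc
    have hq0 : q ≠ 0 := by
      rintro rfl; rw [mul_zero] at hq; exact a.denom_ne_zero hq
    have h2 : aeval (hx k g) (X - C c) = hx k g - algebraMap k (HK k g) c := by simp
    have h3 : 0 < P.ord (aeval (hx k g) a.denom) := by
      rw [hq, map_mul, h2, P.ord_mul (by rw [← h2]; exact hne _ (X_sub_C_ne_zero c)) (hne q hq0)]
      have := (P.reg_iff (hne q hq0)).1 (ord_poly_nonneg P hxP q)
      omega
    have h4 : 0 < P.ord (aeval (hx k g) a.num) := by
      rw [← algebraMap_num_denom, P.ord_mul ha' (hne _ a.denom_ne_zero)]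
      omega
    have h5 : a.num.eval c ≠ 0 := by
      intro h5
      have h6 := a.isCoprime_num_denom
      obtain ⟨u, v, huv⟩ := h6
      have := congrArg (eval c) huv
      rw [eval_add, eval_mul, eval_mul, h5, show a.denom.eval c = 0 from hc] at this
      simp at this
    obtain ⟨s, hs⟩ : (X - C c) ∣ a.num - C (a.num.eval c) := by
      rw [dvd_iff_isRoot]; simp
    have h6 : aeval (hx k g) a.num - algebraMap k (HK k g) (a.num.eval c) =
        (hx k g - algebraMap k (HK k g) c) * aeval (hx k g) s := by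
      rw [← h2, ← map_mul, ← hs]; simp
    have r1 := ord_poly_nonneg P hxP a.num
    have r2 : P.Reg (hx k g - algebraMap k (HK k g) c) := Or.inr hP.le
    have r3 := ord_poly_nonneg P hxP s
    have h7 := congrArg P.red h6
    rw [P.red_sub r1 (P.reg_const _), P.red_mul r2 r3, (P.red_eq_zero_iff r1).2 (Or.inr h4),
      (P.red_eq_zero_iff r2).2 (Or.inr hP), zero_mul, zero_sub, neg_eq_zero, ← P.algebraMap_RF, map_eq_zero] at h7
    exact h5 h7
  have hd1 : a.denom = 1 := by
    have := a.monic_denom
    exact this.natDegree_eq_zero.1 hden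
  refine ⟨a.num, ?_, ?_⟩
  · have := RatFunc.num_div_denom a
    rw [hd1, map_one, div_one] at this
    exact this
  · obtain ⟨P, hP⟩ := exists_pole (k := k) (hx_trans k g)
    have h1 := hmem P
    have h2 := algebraMap_num_denom g a
    rw [hd1, map_one, mul_one] at h2
    have hnum : a.num ≠ 0 := RatFunc.num_ne_zero ha
    rw [h2, ord_poly_neg P hP (hx_trans k g) _ a.num hnum rfl, Finsupp.smul_apply, polar_apply,
      max_eq_left (by omega), nsmul_eq_mul] at h1
    have h3 : (M : ℤ) * P.ord (hx k g) ≤ a.num.natDegree * P.ord (hx k g) := by linarith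
    have h4 := (mul_le_mul_right_of_neg hP).1 h3
    exact_mod_cast h4

theorem ord_hy_pole (P : Place k (HK k g)) (hP : P.ord (hx k g) < 0) :
    P.ord (hy k g) = (g + 1) * P.ord (hx k g) := by
  have h1 := congrArg P.ord (hy_sq k g)
  rw [P.ord_pow, ord_poly_neg P hP (hx_trans k g) _ _ (hf_ne_zero g) (hf_natDegree g)] at h1
  push_cast at h1
  linarith

theorem ord_hy_nonneg (P : Place k (HK k g)) (hP : 0 ≤ P.ord (hx k g)) : 0 ≤ P.ord (hy k g) := by
  have h1 := congrArg P.ord (hy_sq k g)
  have h2 := (P.reg_iff (by rw [← hy_sq]; exact pow_ne_zero _ (hy_ne_zero k g))).1 (ord_poly_nonneg P hP (hf k g))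
  rw [← h1, P.ord_pow] at h2
  push_cast at h2
  linarith

theorem mem1 {p : k[X]} {N : ℕ} (hp : p.natDegree ≤ N) : aeval (hx k g) p ∈ LL (N • polar (k := k) (hx k g)) := by
  by_cases hp0 : p = 0
  · rw [hp0, map_zero]; exact Or.inl rfl
  right
  intro P
  rw [Finsupp.smul_apply, polar_apply, nsmul_eq_mul]
  have hne : aeval (hx k g) p ≠ 0 := fun h => hx_trans k g ⟨p, hp0, h⟩
  rcases lt_or_ge (P.ord (hx k g)) 0 with h | h
  · rw [max_eq_left (by omega), ord_poly_neg P h (hx_trans k g) _ p hp0 rfl]
    have : (N : ℤ) * P.ord (hx k g) ≤ p.natDegree * P.ord (hx k g) :=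
      mul_le_mul_of_nonpos_right (by exact_mod_cast hp) h.le
    linarith
  · rw [max_eq_right (by omega), mul_zero, neg_zero]
    exact (P.reg_iff hne).1 (ord_poly_nonneg P h p)

theorem mem2 {p : k[X]} {N : ℕ} (hp : p = 0 ∨ p.natDegree + g + 1 ≤ N) :
    aeval (hx k g) p * hy k g ∈ LL (N • polar (k := k) (hx k g)) := by
  by_cases hp0 : p = 0
  · rw [hp0, map_zero, zero_mul]; exact Or.inl rfl
  have hp := hp.resolve_left hp0
  right
  intro P
  have hne : aeval (hx k g) p ≠ 0 := fun h => hx_trans k g ⟨p, hp0, h⟩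
  rw [Finsupp.smul_apply, polar_apply, nsmul_eq_mul, P.ord_mul hne (hy_ne_zero k g)]
  rcases lt_or_ge (P.ord (hx k g)) 0 with h | h
  · rw [max_eq_left (by omega), ord_poly_neg P h (hx_trans k g) _ p hp0 rfl, ord_hy_pole g P h]
    have : (N : ℤ) * P.ord (hx k g) ≤ (p.natDegree + g + 1) * P.ord (hx k g) :=
      mul_le_mul_of_nonpos_right (by exact_mod_cast hp) h.le
    linarith
  · rw [max_eq_right (by omega), mul_zero, neg_zero]
    have h1 := (P.reg_iff hne).1 (ord_poly_nonneg P h p)
    have h2 := ord_hy_nonneg g P h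
    omega

theorem inv_mem {w : HK k g} {N : ℕ} (hw : w ∈ LL (N • polar (k := k) (hx k g))) :
    inv k g w ∈ LL (N • polar (k := k) (hx k g)) := by
  rcases hw with rfl | hw
  · left; rw [map_zero]
  right
  intro P
  have h1 := hw (P.comp ((inv k g).restrictScalars k))
  have h2 : (P.comp ((inv k g).restrictScalars k)).ord w = P.ord (inv k g w) := rfl
  have h3 : (P.comp ((inv k g).restrictScalars k)).ord (hx k g) = P.ord (hx k g) := by
    change P.ord (inv k g (hx k g)) = _
    congr 1
    exact (inv k g).commutes _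
  rw [Finsupp.smul_apply, polar_apply, h2, h3] at h1
  rw [Finsupp.smul_apply, polar_apply]
  exact h1

theorem rep_of_mem {w : HK k g} {N : ℕ} (hw : w ∈ LL (N • polar (k := k) (hx k g))) :
    ∃ p q : k[X], p.natDegree ≤ N ∧ (q = 0 ∨ q.natDegree + g + 1 ≤ N) ∧
      w = aeval (hx k g) p + aeval (hx k g) q * hy k g := by
  obtain ⟨a, b, hab⟩ := exists_rep k g w
  have h2 := inv_mem g hw
  have h3 : inv k g w = algebraMap (RatFunc k) (HK k g) a - algebraMap (RatFunc k) (HK k g) b * hy k g := by
    rw [hab, map_add, map_mul, inv_hy, (inv k g).commutes, (inv k g).commutes]; ring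
  have hchar : (2 : k) ≠ 0 := two_ne_zero
  have h4 : algebraMap (RatFunc k) (HK k g) a ∈ LL (N • polar (k := k) (hx k g)) := by
    have := Submodule.smul_mem _ ((2 : k)⁻¹) (Submodule.add_mem _ hw h2)
    rw [h3, hab] at this
    convert this using 1
    rw [Algebra.smul_def, map_inv₀]
    have : algebraMap k (HK k g) 2 ≠ 0 := by rwa [Ne, map_eq_zero]
    field_simp
    rw [map_ofNat]
    ring
  have h5 : algebraMap (RatFunc k) (HK k g) b * hy k g ∈ LL (N • polar (k := k) (hx k g)) := by
    have := Submodule.sub_mem _ hw h4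
    rwa [hab, add_sub_cancel_left] at this
  obtain ⟨p, hp, hpN⟩ : ∃ p : k[X], algebraMap k[X] (RatFunc k) p = a ∧ p.natDegree ≤ N := by
    by_cases ha : a = 0
    · exact ⟨0, by rw [ha, map_zero], by simp⟩
    · exact poly_of_mem g ha h4
  obtain ⟨q, hq, hqN⟩ : ∃ q : k[X], algebraMap k[X] (RatFunc k) q = b ∧ (q = 0 ∨ q.natDegree + g + 1 ≤ N) := by
    by_cases hb : b = 0
    · exact ⟨0, by rw [hb, map_zero], Or.inl rfl⟩
    set F := algebraMap k[X] (RatFunc k) (hf k g) with hF
    have hF0 : F ≠ 0 := by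
      rw [hF, Ne, map_eq_zero_iff _ (RatFunc.algebraMap_injective k)]; exact hf_ne_zero g
    have h6 : algebraMap (RatFunc k) (HK k g) (b ^ 2 * F) = (algebraMap (RatFunc k) (HK k g) b * hy k g) ^ 2 := by
      rw [mul_pow, hy_sq, aeval_hx, map_mul, map_pow]
    have h7 : algebraMap (RatFunc k) (HK k g) (b ^ 2 * F) ∈ LL ((2 * N) • polar (k := k) (hx k g)) := by
      rw [h6]
      have hne : algebraMap (RatFunc k) (HK k g) b * hy k g ≠ 0 :=
        mul_ne_zero (by rwa [Ne, map_eq_zero]) (hy_ne_zero k g)
      have h8 := h5.resolve_left hne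
      right
      intro P
      have h9 := h8 P
      rw [Finsupp.smul_apply, nsmul_eq_mul] at h9 ⊢
      rw [P.ord_pow]
      push_cast
      linarith
    obtain ⟨h, hh, hhN⟩ := poly_of_mem g (mul_ne_zero (pow_ne_zero 2 hb) hF0) h7
    have h8 : (b * F) ^ 2 = algebraMap k[X] (RatFunc k) (h * hf k g) := by
      rw [map_mul, hh]; ring
    obtain ⟨s, hs⟩ := IsIntegrallyClosed.exists_algebraMap_eq_of_isIntegral_pow (R := k[X]) (K := RatFunc k)
      (x := b * F) (n := 2) (by norm_num) (by rw [h8]; exact isIntegral_algebraMap)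
    rw [← hs, ← map_pow] at h8
    have h9 := RatFunc.algebraMap_injective k h8
    have h10 : hf k g ∣ s := by
      have h11 : hf k g ∣ s ^ 2 := ⟨h, by rw [h9]; ring⟩
      exact ((hf_sep (k := k) g).squarefree.dvd_pow_iff_dvd two_ne_zero).1 h11
    obtain ⟨t, ht⟩ := h10
    have h12 : algebraMap k[X] (RatFunc k) t = b := by
      rw [ht, map_mul] at hs
      have : F * algebraMap k[X] (RatFunc k) t = F * b := by rw [hs, mul_comm]
      exact mul_left_cancel₀ hF0 this
    refine ⟨t, h12, Or.inr ?_⟩
    have ht0 : t ≠ 0 := by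
      rintro rfl; apply hb; rw [← h12, map_zero]
    have h13 : t ^ 2 * hf k g = h := by
      have : algebraMap k[X] (RatFunc k) (t ^ 2 * hf k g) = algebraMap k[X] (RatFunc k) h := by
        rw [hh, map_mul, map_pow, h12]
      exact RatFunc.algebraMap_injective k this
    have h14 := congrArg natDegree h13
    rw [natDegree_mul (pow_ne_zero 2 ht0) (hf_ne_zero g), natDegree_pow, hf_natDegree] at h14
    omega
  exact ⟨p, q, hpN, hqN, by rw [aeval_hx, aeval_hx, hp, hq, hab]⟩

/-- `1, y` are independent over `k(x)`. -/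
theorem rep_unique {a b : RatFunc k} (h : algebraMap (RatFunc k) (HK k g) a +
    algebraMap (RatFunc k) (HK k g) b * hy k g = 0) : a = 0 ∧ b = 0 := by
  have h3 := congrArg (inv k g) h
  rw [map_add, map_mul, inv_hy, (inv k g).commutes, (inv k g).commutes, map_zero] at h3
  have h4 : algebraMap (RatFunc k) (HK k g) a = 0 := by
    have : (2 : HK k g) * algebraMap (RatFunc k) (HK k g) a = 0 := by
      have hchar : CharZero (HK k g) := charZero_of_injective_algebraMap (algebraMap k (HK k g)).injective
      linear_combination h + h3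
    have hchar : CharZero (HK k g) := charZero_of_injective_algebraMap (algebraMap k (HK k g)).injective
    exact (mul_eq_zero.1 this).resolve_left two_ne_zero
  have h5 : algebraMap (RatFunc k) (HK k g) b * hy k g = 0 := by rwa [h4, zero_add] at h
  have h6 := (mul_eq_zero.1 h5).resolve_right (hy_ne_zero k g)
  exact ⟨by rwa [map_eq_zero] at h4, by rwa [map_eq_zero] at h6⟩

noncomputable def phi (N : ℕ) : (degreeLT k (N + 1) × degreeLT k (N - g)) →ₗ[k] HK k g :=
  ((aeval (hx k g)).toLinearMap.comp (degreeLT k (N + 1)).subtype).coprod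
    ((LinearMap.mulRight k (hy k g)).comp ((aeval (hx k g)).toLinearMap.comp (degreeLT k (N - g)).subtype))

theorem phi_apply (N : ℕ) (v : degreeLT k (N + 1) × degreeLT k (N - g)) :
    phi g N v = aeval (hx k g) (v.1 : k[X]) + aeval (hx k g) (v.2 : k[X]) * hy k g := by
  simp [phi]

theorem phi_injective (N : ℕ) : Function.Injective (phi (k := k) g N) := by
  rw [← LinearMap.ker_eq_bot, LinearMap.ker_eq_bot']
  intro v hv
  rw [phi_apply, aeval_hx, aeval_hx] at hv
  obtain ⟨h1, h2⟩ := rep_unique g hv
  rw [map_eq_zero_iff _ (RatFunc.algebraMap_injective k)] at h1 h2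
  ext1
  · exact Subtype.ext h1
  · exact Subtype.ext h2

theorem range_phi (N : ℕ) : LinearMap.range (phi (k := k) g N) = LL (N • polar (k := k) (hx k g)) := by
  apply le_antisymm
  · rintro _ ⟨v, rfl⟩
    rw [phi_apply]
    apply Submodule.add_mem
    · apply mem1
      have := v.1.2
      rw [mem_degreeLT] at this
      by_cases h0 : (v.1 : k[X]) = 0
      · rw [h0]; simp
      · rw [degree_eq_natDegree h0] at this
        have : (v.1 : k[X]).natDegree < N + 1 := by exact_mod_cast this
        omega
    · apply mem2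
      have := v.2.2
      rw [mem_degreeLT] at this
      by_cases h0 : (v.2 : k[X]) = 0
      · exact Or.inl h0
      · right
        rw [degree_eq_natDegree h0] at this
        have : (v.2 : k[X]).natDegree < N - g := by exact_mod_cast this
        omega
  · intro w hw
    obtain ⟨p, q, hp, hq, rfl⟩ := rep_of_mem g hw
    refine ⟨(⟨p, ?_⟩, ⟨q, ?_⟩), ?_⟩
    · rw [mem_degreeLT]
      exact (degree_le_natDegree).trans_lt (by exact_mod_cast Nat.lt_succ_of_le hp)
    · rw [mem_degreeLT]
      rcases hq with rfl | hq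
      · rw [degree_zero]; exact WithBot.bot_lt_coe _
      · exact (degree_le_natDegree).trans_lt (by exact_mod_cast (by omega : q.natDegree < N - g))
    · rw [phi_apply]

theorem ell_polar (N : ℕ) : ell (N • polar (k := k) (hx k g)) = (N + 1) + (N - g : ℕ) := by
  unfold ell
  rw [← range_phi, LinearMap.finrank_range_of_inj (phi_injective g N), Module.finrank_prod,
    (degreeLTEquiv k (N + 1)).finrank_eq, (degreeLTEquiv k (N - g)).finrank_eq]
  simp

theorem genus_HK : HasGenus k (HK k g) g ∧ ddeg (polar (k := k) (hx k g)) = 2 := by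
  obtain ⟨γ, N, h1, h2⟩ := riemann k (HK k g)
  have h3 := ddeg_polar_pos (hx_trans k g)
  set δ := ddeg (polar (k := k) (hx k g)) with hδ
  have key : ∀ M : ℕ, g ≤ M → N ≤ M → (2 : ℤ) * M + 1 - g = M * δ - γ := by
    intro M hM hNM
    have h4 := ell_polar (k := k) g M
    have h5 := h2 (M • polar (k := k) (hx k g)) (by
      rw [ddeg_nsmul, ← hδ]
      have : (M : ℤ) * 1 ≤ M * δ := mul_le_mul_of_nonneg_left (by omega) (by positivity)
      omega)
    rw [h4, ddeg_nsmul, ← hδ] at h5
    rw [← h5]
    push_cast [Nat.cast_sub hM]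
    ring
  have k1 := key (g + N.toNat) (by omega) (by push_cast; omega)
  have k2 := key (g + N.toNat + 1) (by omega) (by push_cast; omega)
  have hδ2 : δ = 2 := by
    push_cast at k1 k2
    linarith
  have hγ : γ = g - 1 := by
    rw [hδ2] at k1
    linarith
  refine ⟨⟨fun D => ?_, N, fun D hD => ?_⟩, hδ2⟩
  · have := h1 D; rw [hγ] at this; linarith
  · have := h2 D hD; rw [hγ] at this; linarith

end

end Pool.Agent.W523.BN
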