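import Pool.Agent.W523.BN.Main
import Pool.Agent.W523.BN.Hyper2

/-!
# Curves, linear series and Brill-Noether loci

Smooth projective curves over the complex numbers are described by their function fields.
-/

set_option autoImplicit false
set_option linter.all false

open FF

namespace Pool.Agent.W523.BN

/-- A smooth irreducible projective curve over `ℂ`, given by its function field `K`: a finitely generated
extension of `ℂ` of transcendence degree one. Its points are the places of `K / ℂ` (`FF.Place ℂ K`). -/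
structure Curve where
  /-- the function field -/
  K : Type
  /-- it is a field -/
  [field : Field K]
  /-- containing `ℂ` -/
  [alg : Algebra ℂ K]
  /-- finitely generated of transcendence degree one -/
  [ff : IsFF ℂ K]

attribute [instance] Curve.field Curve.alg Curve.ff

/-- The degree of a divisor `D = ∑ D(P) P` (all points have residue field `ℂ`). -/
noncomputable def Curve.degree (C : Curve) (D : Place ℂ C.K →₀ ℤ) : ℤ := D.sum fun _ n => n

/-- The rational functions `f` with `div f + D ≥ 0`, and zero. -/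
def Curve.sections (C : Curve) (D : Place ℂ C.K →₀ ℤ) : Set C.K := {f | f = 0 ∨ ∀ P, - D P ≤ P.ord f}

/-- `l(D)`, the dimension of the Riemann-Roch space of `D`. -/
noncomputable def Curve.l (C : Curve) (D : Place ℂ C.K →₀ ℤ) : ℤ :=
  Module.finrank ℂ (Submodule.span ℂ (C.sections D))

/-- `C` has genus `g`: `l(D) ≥ deg D + 1 - g` for every divisor `D`, with equality when `deg D` is large. -/
def Curve.HasGenus (C : Curve) (g : ℤ) : Prop :=
  (∀ D : Place ℂ C.K →₀ ℤ, C.degree D + 1 - g ≤ C.l D) ∧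
  ∃ N : ℤ, ∀ D : Place ℂ C.K →₀ ℤ, N ≤ C.degree D → C.l D = C.degree D + 1 - g

/-- `C` has a `g^r_d`: there is a divisor `D` of degree `d` with `l(D) ≥ r + 1`. -/
def Curve.HasSeries (C : Curve) (r d : ℤ) : Prop :=
  ∃ D : Place ℂ C.K →₀ ℤ, C.degree D = d ∧ r + 1 ≤ C.l D

/-- The Brill-Noether locus `M^r_{g,d}`: the curves of genus `g` which have a `g^r_d`. -/
def locus (g r d : ℤ) : Set Curve := {C | C.HasGenus g ∧ C.HasSeries r d}

theorem degree_eq (C : Curve) (D : Place ℂ C.K →₀ ℤ) : C.degree D = ddeg D := by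
  unfold Curve.degree ddeg
  refine Finsupp.sum_congr fun P _ => ?_
  rw [deg_one]; simp

theorem l_eq (C : Curve) (D : Place ℂ C.K →₀ ℤ) : C.l D = ell D := by
  have : C.sections D = (LL D : Set C.K) := rfl
  unfold Curve.l ell
  rw [this, Submodule.span_eq]

/-- The Brill-Noether number `ρ(g,r,d) = g - (r+1)(g-d+r)`. -/
def rho (g r d : ℤ) : ℤ := g - (r + 1) * (g - d + r)

theorem locus_subset {g r s d : ℤ} (hs : 0 ≤ s) (hsr : s ≤ r) (hg : (d - 1) ^ 2 < g) :
    locus g r d ⊆ locus g s (d - 2 * (r - s)) := by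
  rintro C ⟨hC, D, hD, hr⟩
  refine ⟨hC, ?_⟩
  obtain ⟨g, rfl⟩ := Int.eq_ofNat_of_zero_le (le_trans (sq_nonneg _) hg.le)
  obtain ⟨s, rfl⟩ := Int.eq_ofNat_of_zero_le hs
  obtain ⟨r, rfl⟩ := Int.eq_ofNat_of_zero_le (hs.trans hsr)
  have hg' : HasGenus ℂ C.K g := by
    unfold Curve.HasGenus at hC
    simp only [degree_eq, l_eq] at hC
    exact hC
  rw [degree_eq] at hD
  rw [l_eq] at hr
  obtain ⟨D', hD', h'⟩ := main (s := s) hg' (by exact_mod_cast hsr) hg D hD hr
  exact ⟨D', by rw [degree_eq]; exact hD', by rw [l_eq]; exact h'⟩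

theorem locus_nonempty {g r d : ℤ} (hg : 0 ≤ g) (hr : 0 ≤ r) (hd : 2 * r ≤ d) : (locus g r d).Nonempty := by
  classical
  obtain ⟨g, rfl⟩ := Int.eq_ofNat_of_zero_le hg
  obtain ⟨r, rfl⟩ := Int.eq_ofNat_of_zero_le hr
  obtain ⟨h1, h2⟩ := genus_HK (k := ℂ) g
  obtain ⟨P, -⟩ := exists_place (k := ℂ) (K := HK ℂ g)
  have h1' : Curve.HasGenus ⟨HK ℂ g⟩ g := by
    unfold Curve.HasGenus
    simp only [degree_eq, l_eq]
    exact h1
  refine ⟨⟨HK ℂ g⟩, h1', r • polar (k := ℂ) (hx ℂ g) + Finsupp.single P (d - 2 * r), ?_, ?_⟩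
  · rw [degree_eq, ddeg_add, ddeg_nsmul, h2, ddeg_single, deg_one]
    push_cast
    ring
  · have h3 := ell_polar (k := ℂ) g r
    have h4 : ell (r • polar (k := ℂ) (hx ℂ g)) ≤
        ell (r • polar (k := ℂ) (hx ℂ g) + Finsupp.single P (d - 2 * r)) :=
      ell_mono (le_add_of_nonneg_right (by
        intro Q; rw [Finsupp.single_apply]; split_ifs <;> simp; omega))
    rw [h3] at h4
    rw [l_eq]
    push_cast at h4 ⊢
    omega

end Pool.Agent.W523.BN
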