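import Pool.Agent.W523.BN.Fib

/-! The hyperelliptic function field `y^2 = x^(2g+2) - 1` has genus `g`. -/

set_option autoImplicit false
set_option linter.all false

open Module IsDedekindDomain IntermediateField FF Polynomial

namespace Pool.Agent.W523.BN

variable {k K : Type*} [Field k] [Field K] [Algebra k K] [CharZero k] [IsFF k K]

section ords
variable [IsAlgClosed k] (P : Place k K) {x : K}

theorem ord_sub_const_neg (hx : P.ord x < 0) (c : k) : P.ord (x - algebraMap k K c) = P.ord x := by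
  by_cases hc : c = 0
  · simp [hc]
  have hx0 : x ≠ 0 := by rintro rfl; rw [P.ord_zero] at hx; exact lt_irrefl _ hx
  have h1 : algebraMap k K (-c) ≠ 0 := by
    rw [Ne, map_eq_zero, neg_eq_zero]; exact hc
  have h2 : P.ord (algebraMap k K (-c)) = 0 := P.ord_const (neg_ne_zero.2 hc)
  have h3 := P.ord_add_eq hx0 h1 (by rw [h2]; exact hx)
  rw [sub_eq_add_neg, ← map_neg]
  exact h3.2

theorem ord_poly_neg (hx : P.ord x < 0) (hxt : Transcendental k x) (n : ℕ) : ∀ p : k[X], p ≠ 0 → p.natDegree = n →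
    P.ord (aeval x p) = n * P.ord x := by
  induction n with
  | zero =>
    intro p hp hn
    rw [Polynomial.eq_C_of_natDegree_eq_zero hn, aeval_C]
    have : p.coeff 0 ≠ 0 := by
      intro h; apply hp; rw [Polynomial.eq_C_of_natDegree_eq_zero hn, h, C_0]
    rw [P.ord_const this]; simp
  | succ n ih =>
    intro p hp hn
    obtain ⟨c, hc⟩ := IsAlgClosed.exists_root p (by
      rw [Polynomial.degree_eq_natDegree hp, hn]; exact_mod_cast Nat.succ_ne_zero n)
    obtain ⟨q, rfl⟩ := dvd_iff_isRoot.2 hc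
    have hq : q ≠ 0 := right_ne_zero_of_mul hp
    have hqn : q.natDegree = n := by
      rw [natDegree_mul (X_sub_C_ne_zero c) hq, natDegree_X_sub_C] at hn; omega
    have h1 : aeval x (X - C c) = x - algebraMap k K c := by simp
    have h2 : x - algebraMap k K c ≠ 0 := fun h => not_mem_of_trans hxt c (sub_eq_zero.1 h).symm
    have h3 : aeval x q ≠ 0 := fun h => hxt ⟨q, hq, h⟩
    rw [map_mul, h1, P.ord_mul h2 h3, ord_sub_const_neg P hx, ih q hq hqn]
    push_cast; ring

theorem ord_poly_nonneg (hx : 0 ≤ P.ord x) (p : k[X]) : P.Reg (aeval x p) := by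
  induction p using Polynomial.induction_on' with
  | add p q hp hq => rw [map_add]; exact P.reg_add hp hq
  | monomial n a =>
    rw [aeval_monomial]
    apply P.reg_mul (P.reg_const a)
    right
    rw [P.ord_pow]; positivity

end ords

/-- the polynomial `x^(2g+2) - 1` -/
noncomputable def hf (k : Type*) [Field k] (g : ℕ) : k[X] := X ^ (2 * g + 2) - 1

theorem hf_sep (g : ℕ) : (hf k g).Separable := by
  unfold hf
  rw [X_pow_sub_one_separable_iff]
  exact_mod_cast (by omega : 2 * g + 2 ≠ 0)

theorem hf_natDegree (g : ℕ) : (hf k g).natDegree = 2 * g + 2 := by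
  unfold hf
  rw [← C_1]
  exact natDegree_X_pow_sub_C

theorem hf_ne_zero (g : ℕ) : hf k g ≠ 0 := (hf_sep g).ne_zero

theorem hf_not_sq (g : ℕ) (b : RatFunc k) : b ^ 2 ≠ algebraMap k[X] (RatFunc k) (hf k g) := by
  intro h
  obtain ⟨p, rfl⟩ := IsIntegrallyClosed.exists_algebraMap_eq_of_isIntegral_pow (R := k[X]) (K := RatFunc k)
    (x := b) (n := 2) (by norm_num) (by rw [h]; exact isIntegral_algebraMap)
  rw [← map_pow] at h
  have h1 := RatFunc.algebraMap_injective k h
  have h2 : IsUnit p := (hf_sep g).squarefree p ⟨1, by rw [← h1]; ring⟩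
  have h3 := hf_natDegree (k := k) g
  rw [← h1, natDegree_pow, natDegree_eq_zero_of_isUnit h2] at h3
  omega

instance (g : ℕ) : Fact (Irreducible (X ^ 2 - C (algebraMap k[X] (RatFunc k) (hf k g)) : (RatFunc k)[X])) :=
  ⟨X_pow_sub_C_irreducible_of_prime Nat.prime_two (hf_not_sq g)⟩

/-- The function field of the curve `y^2 = x^(2g+2) - 1`. -/
abbrev HK (k : Type*) [Field k] (g : ℕ) : Type _ :=
  AdjoinRoot (X ^ 2 - C (algebraMap k[X] (RatFunc k) (hf k g)) : (RatFunc k)[X])

noncomputable instance (g : ℕ) : Field (HK k g) := AdjoinRoot.instField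

instance instFin (g : ℕ) : FiniteDimensional (RatFunc k) (HK k g) :=
  (monic_X_pow_sub_C _ two_ne_zero).finite_adjoinRoot

theorem isFF_ratFunc (k : Type*) [Field k] [CharZero k] : IsFF k (RatFunc k) := by
  refine IsFF.of_finite (f := (RatFunc.X : RatFunc k)) RatFunc.transcendental_X ?_
  rw [RatFunc.adjoin_X]
  exact FiniteDimensional.of_finrank_pos (by rw [IntermediateField.finrank_top]; norm_num)

theorem isFF_of_finite {F : Type*} [Field F] [Algebra k F] {L : Type*} [Field L] [Algebra k L] [Algebra F L]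
    [IsScalarTower k F L] [IsFF k F] [FiniteDimensional F L] : IsFF k L := by
  obtain ⟨t, ht⟩ := IsFF.exists_transcendental (k := k) (K := F)
  have h1 : FiniteDimensional k⟮t⟯ F := IsFF.finite ht
  have h2 : (k⟮t⟯).map (IsScalarTower.toAlgHom k F L) = k⟮algebraMap F L t⟯ := by
    rw [IntermediateField.adjoin_map, Set.image_singleton]
    rfl
  refine IsFF.of_finite (f := algebraMap F L t)
    ((transcendental_algebraMap_iff (algebraMap F L).injective).2 ht) ?_
  have h1 : FiniteDimensional k⟮t⟯ L := FiniteDimensional.trans _ F _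
  rw [← h2]
  refine Module.Finite.of_equiv_equiv
    (IntermediateField.equivMap (k⟮t⟯) (IsScalarTower.toAlgHom k F L)).toRingEquiv (RingEquiv.refl L)
    ?_
  ext x
  rfl

instance instIsFF (g : ℕ) : IsFF k (HK k g) := by
  haveI := isFF_ratFunc k
  exact isFF_of_finite (F := RatFunc k)

section hyp
variable (k) (g : ℕ)

noncomputable def hx : HK k g := algebraMap (RatFunc k) (HK k g) RatFunc.X
noncomputable def hy : HK k g := AdjoinRoot.root _

theorem hx_trans : Transcendental k (hx k g) :=
  (transcendental_algebraMap_iff (algebraMap (RatFunc k) (HK k g)).injective).2 RatFunc.transcendental_X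

theorem aeval_hx (p : k[X]) : aeval (hx k g) p = algebraMap (RatFunc k) (HK k g) (algebraMap k[X] (RatFunc k) p) := by
  have h1 : (aeval (hx k g) : k[X] →ₐ[k] HK k g) = (IsScalarTower.toAlgHom k (RatFunc k) (HK k g)).comp
      (IsScalarTower.toAlgHom k k[X] (RatFunc k)) := by
    ext
    simp [hx, RatFunc.algebraMap_X]
  rw [h1]
  rfl

theorem hy_sq : hy k g ^ 2 = aeval (hx k g) (hf k g) := by
  have h := AdjoinRoot.eval₂_root (X ^ 2 - C (algebraMap k[X] (RatFunc k) (hf k g)) : (RatFunc k)[X])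
  rw [eval₂_sub, eval₂_pow, eval₂_X, eval₂_C, sub_eq_zero] at h
  rw [aeval_hx]
  exact h

theorem exists_rep (w : HK k g) : ∃ a b : RatFunc k, w = algebraMap (RatFunc k) (HK k g) a +
    algebraMap (RatFunc k) (HK k g) b * hy k g := by
  induction w using AdjoinRoot.induction_on with
  | _ p =>
    have hm : (X ^ 2 - C (algebraMap k[X] (RatFunc k) (hf k g)) : (RatFunc k)[X]).Monic :=
      monic_X_pow_sub_C _ two_ne_zero
    have h1 : AdjoinRoot.mk (X ^ 2 - C (algebraMap k[X] (RatFunc k) (hf k g)) : (RatFunc k)[X]) p =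
        AdjoinRoot.mk _ (p %ₘ (X ^ 2 - C (algebraMap k[X] (RatFunc k) (hf k g)))) := by
      rw [AdjoinRoot.mk_eq_mk]
      exact ⟨p /ₘ (X ^ 2 - C (algebraMap k[X] (RatFunc k) (hf k g))), by
        rw [sub_eq_iff_eq_add, add_comm]
        exact (modByMonic_add_div p _).symm⟩
    have h2 : (p %ₘ (X ^ 2 - C (algebraMap k[X] (RatFunc k) (hf k g)))).natDegree < 2 := by
      have := natDegree_modByMonic_lt p hm (by
        intro h
        have := congrArg natDegree h
        rw [natDegree_X_pow_sub_C, natDegree_one] at this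
        omega)
      rwa [natDegree_X_pow_sub_C] at this
    obtain ⟨b, a, h3⟩ := Polynomial.exists_eq_X_add_C_of_natDegree_le_one
      (p := p %ₘ (X ^ 2 - C (algebraMap k[X] (RatFunc k) (hf k g)))) (by omega)
    rw [h1, h3]
    refine ⟨a, b, ?_⟩
    rw [map_add, map_mul, AdjoinRoot.mk_X, AdjoinRoot.mk_C, AdjoinRoot.mk_C, add_comm]
    rfl

/-- the hyperelliptic involution -/
noncomputable def invHom : HK k g →ₐ[RatFunc k] HK k g :=
  AdjoinRoot.liftAlgHom (X ^ 2 - C (algebraMap k[X] (RatFunc k) (hf k g)) : (RatFunc k)[X])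
    (Algebra.ofId (RatFunc k) (HK k g)) (- hy k g) (by
    rw [eval₂_sub, eval₂_pow, eval₂_X, eval₂_C, neg_sq, hy_sq, aeval_hx]
    exact sub_self _)

theorem invHom_hy : invHom k g (hy k g) = - hy k g := AdjoinRoot.liftAlgHom_root _ _ _ _

noncomputable def inv : HK k g ≃ₐ[RatFunc k] HK k g :=
  AlgEquiv.ofBijective (invHom k g) (Algebra.IsAlgebraic.algHom_bijective (invHom k g))

theorem inv_hy : inv k g (hy k g) = - hy k g := invHom_hy k g

theorem hy_ne_zero : hy k g ≠ 0 := by
  intro h
  have h1 := hy_sq k g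
  rw [h, zero_pow two_ne_zero, eq_comm] at h1
  exact hx_trans k g ⟨hf k g, hf_ne_zero g, h1⟩

end hyp

end Pool.Agent.W523.BN
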