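import Pool.Agent.W523.BN.Fib

/-! Curves of large genus: every `g^r_d` gives a `g^s_(d - 2(r-s))`. -/

set_option autoImplicit false
set_option linter.all false

open Module IsDedekindDomain IntermediateField FF

namespace Pool.Agent.W523.BN

variable {k K : Type*} [Field k] [Field K] [Algebra k K] [CharZero k] [IsFF k K]

theorem main [IsAlgClosed k] {g : ℕ} (hg : HasGenus k K g) {r s : ℕ} {d : ℤ} (hs : s ≤ r)
    (hd : (d - 1) ^ 2 < g) (D : Place k K →₀ ℤ) (hDd : ddeg D = d) (hD : (r : ℤ) + 1 ≤ ell D) :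
    ∃ D' : Place k K →₀ ℤ, ddeg D' = d - 2 * (r - s) ∧ (s : ℤ) + 1 ≤ ell D' := by
  classical
  rcases hs.eq_or_lt with rfl | hs
  · exact ⟨D, by rw [hDd]; ring, hD⟩
  obtain ⟨f, hf, hf0⟩ := exists_ne_zero_of_ell_pos (D := D) (by omega)
  set D1 := D + divisor k f with hD1
  have hD1e : ell D1 = ell D := ell_add_divisor D hf0
  have hD1d : ddeg D1 = d := by rw [hD1, ddeg_add, ddeg_divisor, hDd, add_zero]
  have hD10 : 0 ≤ D1 := by
    rw [mem_LL' hf0, add_comm] at hf
    exact hf
  -- a nonconstant function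
  obtain ⟨x, hx, hxc⟩ : ∃ x ∈ LL D1, ∀ c : k, algebraMap k K c ≠ x := by
    by_contra hc
    push Not at hc
    have h2 : LL D1 ≤ Submodule.span k {(1 : K)} := by
      intro z hz
      obtain ⟨c, hc⟩ := hc z hz
      rw [Submodule.mem_span_singleton]
      exact ⟨c, by rw [Algebra.smul_def, mul_one, hc]⟩
    have h3 := Submodule.finrank_mono h2
    have h4 := finrank_span_singleton (K := k) (v := (1 : K)) one_ne_zero
    rw [h4] at h3
    have h5 : ell D1 ≤ 1 := by unfold ell; exact_mod_cast h3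
    omega
  have hxt : Transcendental k x := trans_of_notMem hxc
  have hpol : ∀ y ∈ LL D1, polar (k := k) y ≤ D1 := by
    intro y hy Q
    rw [polar_apply]
    have h0 := hD10 Q
    simp only [Finsupp.coe_zero, Pi.zero_apply] at h0
    rcases hy with rfl | hy
    · rw [Q.ord_zero]; simpa using h0
    · have := hy Q
      omega
  by_cases hgen : ∃ y ∈ LL D1, k⟮x⟯⟮y⟯ = ⊤
  · exfalso
    obtain ⟨y, hy, hxy⟩ := hgen
    have h1 := genus_le hxt hxy hg
    have h2 := ddeg_mono (hpol x hx)
    have h3 := ddeg_mono (hpol y hy)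
    have h4 := ddeg_polar_pos hxt
    have h5 := ddeg_nonneg (polar_nonneg (k := k) y)
    rw [hD1d] at h2 h3
    have h6 : (ddeg (polar (k := k) x) - 1) * (ddeg (polar (k := k) y) - 1) ≤ (d - 1) ^ 2 := by
      have h7 : (ddeg (polar (k := k) x) - 1) * (ddeg (polar (k := k) y) - 1) ≤
          (ddeg (polar (k := k) x) - 1) * (d - 1) := mul_le_mul_of_nonneg_left (by omega) (by omega)
      have h8 : (ddeg (polar (k := k) x) - 1) * (d - 1) ≤ (d - 1) * (d - 1) :=
        mul_le_mul_of_nonneg_right (by omega) (by omega)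
      nlinarith
    omega
  push Not at hgen
  obtain ⟨E, hE, hxE, hVE⟩ := exists_field hxt (LL D1) hgen
  have hfin := IsFF.finite hxt
  have hn : 2 ≤ finrank E K := by
    have hxE' : k⟮x⟯ ≤ E := by rw [adjoin_simple_le_iff]; exact hxE
    have : FiniteDimensional E K := by
      letI := (inclusion hxE').toRingHom.toAlgebra
      have : IsScalarTower k⟮x⟯ E K := IsScalarTower.of_algebraMap_eq (fun _ => rfl)
      exact FiniteDimensional.right k⟮x⟯ E K
    have h1 : 0 < finrank E K := finrank_pos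
    have h2 : finrank E K ≠ 1 := by
      intro h
      apply hE
      rwa [IntermediateField.finrank_eq_one_iff_eq_top] at h
    omega
  obtain ⟨F, hF0, hFd, hF⟩ := steps E hxt hxE D1 hVE (r - s)
  obtain ⟨P, -⟩ := exists_place (k := k) (K := K)
  set a : ℕ := (r - s) * (finrank E K - 2) with ha
  refine ⟨D1 - F + Finsupp.single P (a : ℤ), ?_, ?_⟩
  · rw [ddeg_add, ddeg_sub, ddeg_single, deg_one, hD1d, hFd, ha]
    push_cast
    rw [Nat.cast_sub hs.le, Nat.cast_sub hn]
    push_cast
    ring
  · have h1 : ell (D1 - F) ≤ ell (D1 - F + Finsupp.single P (a : ℤ)) :=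
      ell_mono (le_add_of_nonneg_right (by
        intro Q; rw [Finsupp.single_apply]; split_ifs <;> simp))
    rw [Nat.cast_sub hs.le] at hF
    omega

end Pool.Agent.W523.BN
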